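import Pool.Agent.K3h5.FF.Stm

/-! # FF project (helper5, MP_264509_pr): brick WB (helper17) -/

set_option autoImplicit false

namespace Pool.Agent.K3h17.FF

open Pool.Agent.K3h5.FF

theorem mem_inl {s : ℕ} {k : ℤ} : (Sum.inl k : Label) ∈ Win s ↔ -(s : ℤ) ≤ k ∧ k ≤ s := by
  simp [Win]

theorem mem_inr {s j : ℕ} : (Sum.inr j : Label) ∈ Win s ↔ j < s := by
  simp [Win]

/-- every mark of the first one has a partner -/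
def Half {M₁ M₂ : Type} (E : M₁ → M₂ → Prop) (s : ℕ) (L₁ : Label → M₁ → Prop)
    (L₂ : Label → M₂ → Prop) : Prop :=
  ∀ l ∈ Win s, ∀ a, L₁ l a → ∃ b, E a b ∧ L₂ l b

variable {M₁ M₂ : Type} [LinearOrder M₁] [LinearOrder M₂]

theorem up_half {E : M₁ → M₂ → Prop}
    (hE : ∀ a b a' b', E a b → E a' b' → (a < a' ↔ b < b')) {s : ℕ}
    {L₁ L₁' : Label → M₁ → Prop} {L₂ L₂' : Label → M₂ → Prop} {x₁ : M₁} {x₂ : M₂}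
    (h : Half E (s + 1) L₁ L₂) (hx : E x₁ x₂) (u₁ : UpRel s L₁ L₁' x₁)
    (u₂ : UpRel s L₂ L₂' x₂) : Half E s L₁' L₂' := by
  intro l hl a ha
  rcases l with k | j
  · have hk := mem_inl.1 hl
    rcases (u₁.2 k hl a).1 ha with ⟨h1, h2⟩ | ⟨h1, h2⟩ | ⟨h1, h2⟩
    · obtain ⟨b, hb, hb'⟩ := h (Sum.inl (k - 1)) (mem_inl.2 (by push_cast; omega)) a h2
      exact ⟨b, hb, (u₂.2 k hl b).2 (Or.inl ⟨(hE a b x₁ x₂ hb hx).1 h1, hb'⟩)⟩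
    · obtain ⟨b, hb, hb'⟩ := h (Sum.inl k) (mem_inl.2 (by push_cast; omega)) a h2
      exact ⟨b, hb, (u₂.2 k hl b).2 (Or.inr (Or.inl ⟨(hE x₁ x₂ a b hx hb).1 h1, hb'⟩))⟩
    · subst h2
      exact ⟨x₂, hx, (u₂.2 k hl x₂).2 (Or.inr (Or.inr ⟨h1, rfl⟩))⟩
  · have hj := mem_inr.1 hl
    obtain ⟨b, hb, hb'⟩ := h (Sum.inr (j + 1)) (mem_inr.2 (by omega)) a ((u₁.1 j hj a).1 ha)
    exact ⟨b, hb, (u₂.1 j hj b).2 hb'⟩

theorem down_half {E : M₁ → M₂ → Prop}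
    (hE : ∀ a b a' b', E a b → E a' b' → (a < a' ↔ b < b')) {s : ℕ}
    {L₁ L₁' : Label → M₁ → Prop} {L₂ L₂' : Label → M₂ → Prop} {x₁ : M₁} {x₂ : M₂}
    (h : Half E (s + 1) L₁ L₂) (hx : E x₁ x₂) (u₁ : DownRel s L₁ L₁' x₁)
    (u₂ : DownRel s L₂ L₂' x₂) : Half E s L₁' L₂' := by
  intro l hl a ha
  rcases l with k | j
  · have hk := mem_inl.1 hl
    rcases (u₁.2.2 k hl a).1 ha with ⟨h1, h2⟩ | ⟨h1, h2⟩
    · obtain ⟨b, hb, hb'⟩ := h (Sum.inl (k + 1)) (mem_inl.2 (by push_cast; omega)) a h2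
      exact ⟨b, hb, (u₂.2.2 k hl b).2 (Or.inl ⟨(hE a b x₁ x₂ hb hx).1 h1, hb'⟩)⟩
    · obtain ⟨b, hb, hb'⟩ := h (Sum.inl k) (mem_inl.2 (by push_cast; omega)) a h2
      exact ⟨b, hb, (u₂.2.2 k hl b).2 (Or.inr ⟨(hE x₁ x₂ a b hx hb).1 h1, hb'⟩)⟩
  · have hj := mem_inr.1 hl
    rcases j with _ | j
    · have h1 := (u₁.1 hj a).1 ha
      subst h1
      exact ⟨x₂, hx, (u₂.1 hj x₂).2 rfl⟩
    · obtain ⟨b, hb, hb'⟩ := h (Sum.inr j) (mem_inr.2 (by omega)) a ((u₁.2.1 j hj a).1 ha)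
      exact ⟨b, hb, (u₂.2.1 j hj b).2 hb'⟩

theorem front_half {V₁ V₂ : Type} (y₁ : Sys V₁ M₁) (y₂ : Sys V₂ M₂) {E : M₁ → M₂ → Prop} {s : ℕ}
    {v₁ : V₁} {v₂ : V₂} (g₁ : y₁.Good (s + 1) v₁) (g₂ : y₂.Good (s + 1) v₂)
    (h : Half E (s + 1) (y₁.Lab v₁) (y₂.Lab v₂)) : E (y₁.mark v₁) (y₂.mark v₂) := by
  obtain ⟨b, hb, hb'⟩ := h (Sum.inr 0) (mem_inr.2 (Nat.succ_pos s)) (y₁.mark v₁)
    ((y₁.front s v₁ g₁ _).2 rfl)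
  rw [y₂.front s v₂ g₂] at hb'
  rwa [← hb']

/-- one half of the descent -/
theorem down_step {V₁ V₂ : Type} (y₁ : Sys V₁ M₁) (y₂ : Sys V₂ M₂) {E : M₁ → M₂ → Prop}
    (hE : ∀ a b a' b', E a b → E a' b' → (a < a' ↔ b < b')) {s : ℕ}
    {v₁ : V₁} {v₂ : V₂} (g₁ : y₁.Good (s + 1) v₁) (g₂ : y₂.Good (s + 1) v₂)
    (h : Half E (s + 1) (y₁.Lab v₁) (y₂.Lab v₂))
    (h' : Half (fun b a => E a b) (s + 1) (y₂.Lab v₂) (y₁.Lab v₁)) {w₁ : V₁}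
    (hw : y₁.par w₁ = some v₁) : ∃ w₂, y₂.par w₂ = some v₂ ∧ E (y₁.mark w₁) (y₂.mark w₂) ∧
      y₁.Good s w₁ ∧ y₂.Good s w₂ ∧ Half E s (y₁.Lab w₁) (y₂.Lab w₂) ∧
      Half (fun b a => E a b) s (y₂.Lab w₂) (y₁.Lab w₁) := by
  obtain ⟨b, hb, hb'⟩ := h (Sum.inl 0) (mem_inl.2 (by constructor <;> push_cast <;> omega))
    (y₁.mark w₁) ((y₁.child s v₁ _ g₁).2 ⟨w₁, hw, rfl⟩)
  obtain ⟨w₂, hw₂, hm⟩ := (y₂.child s v₂ b g₂).1 hb'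
  subst hm
  obtain ⟨k₁, d₁⟩ := y₁.down s v₁ w₁ g₁ hw
  obtain ⟨k₂, d₂⟩ := y₂.down s v₂ w₂ g₂ hw₂
  exact ⟨w₂, hw₂, hb, k₁, k₂, down_half hE h hb d₁ d₂,
    down_half (fun a b a' b' e e' => (hE b a b' a' e e').symm) h' hb d₂ d₁⟩

/-- the iterates of the parent map are different -/
theorem dist_iter {V M : Type} [LinearOrder M] (y : Sys V M) (n : ℕ) (o : V) (g : y.Good n o)
    (i j : ℕ) (hi : i < n) (hj : j < n) (hij : i ≠ j) :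
    (fun v : Option V => v.bind y.par)^[i] (some o) ≠
      (fun v : Option V => v.bind y.par)^[j] (some o) := by
  have key : ∀ i, i < n → ∃ v, (fun v : Option V => v.bind y.par)^[i] (some o) = some v ∧
      y.Good (n - i) v ∧ ∀ j, i + j < n → ∀ z, y.Lab v (Sum.inr j) z ↔
        y.Lab o (Sum.inr (i + j)) z := by
    intro i
    induction i with
    | zero =>
      intro _
      refine ⟨o, rfl, g, fun j _ z => ?_⟩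
      rw [Nat.zero_add]
    | succ i ih =>
      intro hi
      obtain ⟨v, h1, h2, h3⟩ := ih (by omega)
      obtain ⟨t, ht⟩ : ∃ t, n - i = t + 1 := ⟨n - i - 1, by omega⟩
      rw [ht] at h2
      obtain ⟨w, hw, hg, hu⟩ := y.up t v h2
      refine ⟨w, ?_, ?_, fun j hj z => ?_⟩
      · rw [Function.iterate_succ_apply', h1]
        exact hw
      · have h4 : n - (i + 1) = t := by omega
        rw [h4]
        exact hg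
      · rw [hu.1 j (by omega) z, h3 (j + 1) (by omega) z]
        have h4 : i + (j + 1) = i + 1 + j := by ring
        rw [h4]
  intro heq
  obtain ⟨v, h1, h2, h3⟩ := key i hi
  obtain ⟨v', h1', h2', h3'⟩ := key j hj
  rw [h1, h1'] at heq
  have hv : v = v' := Option.some.inj heq
  subst hv
  obtain ⟨t, ht⟩ : ∃ t, n - i = t + 1 := ⟨n - i - 1, by omega⟩
  rw [ht] at h2
  have h4 := (y.front t v h2 _).2 rfl
  have h5 := (h3 0 (by omega) _).1 h4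
  have h6 := (h3' 0 (by omega) _).1 h4
  have h7 := y.uniq n o g _ (mem_inr.2 (by omega)) _ (mem_inr.2 (by omega)) _ h5 h6
  have h8 := Sum.inr.inj h7
  omega

theorem t_WB : S_BALL → S_WB := by
  intro hB V₁ V₂ M₁ M₂ _ _ y₁ y₂ r o₁ o₂ m w g₁ g₂ hw₁ hw₂ W H p
  obtain ⟨-, z₁, ⟨hz₁, hl₁⟩, hc₁⟩ := hw₁
  obtain ⟨-, z₂, ⟨hz₂, hl₂⟩, hc₂⟩ := hw₂
  set E : M₁ → M₂ → Prop := fun a b => ∃ i, a = z₁ i ∧ b = z₂ i with hEdef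
  have hE : ∀ a b a' b', E a b → E a' b' → (a < a' ↔ b < b') := by
    rintro _ _ _ _ ⟨i, rfl, rfl⟩ ⟨j, rfl, rfl⟩
    rw [hz₁.lt_iff_lt, hz₂.lt_iff_lt]
  have hEq : ∀ a b a' b', E a b → E a' b' → (a = a' ↔ b = b') := by
    rintro _ _ _ _ ⟨i, rfl, rfl⟩ ⟨j, rfl, rfl⟩
    rw [hz₁.injective.eq_iff, hz₂.injective.eq_iff]
  have hE' : ∀ a b a' b', (fun b a => E a b) a b → (fun b a => E a b) a' b' →
      (a < a' ↔ b < b') := fun a b a' b' e e' => (hE b a b' a' e e').symm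
  obtain ⟨e, h₁, h₂, he⟩ := hB V₁ V₂ M₁ M₂ y₁.G y₂.G y₁.par y₂.par y₁.mark y₂.mark y₁.adj y₂.adj
    y₁.inj y₂.inj E hEq (fun s v₁ v₂ => y₁.Good s v₁ ∧ y₂.Good s v₂ ∧
      Half E s (y₁.Lab v₁) (y₂.Lab v₂) ∧ Half (fun b a => E a b) s (y₂.Lab v₂) (y₁.Lab v₁))
    (by
      rintro s v₁ v₂ ⟨k₁, k₂, k₃, k₄⟩
      obtain ⟨w₁, p₁, q₁, u₁⟩ := y₁.up s v₁ k₁
      obtain ⟨w₂, p₂, q₂, u₂⟩ := y₂.up s v₂ k₂
      have hm := front_half y₁ y₂ k₁ k₂ k₃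
      exact ⟨w₁, w₂, p₁, p₂, hm, q₁, q₂, up_half hE k₃ hm u₁ u₂,
        up_half hE' k₄ hm u₂ u₁⟩)
    (by
      rintro s v₁ v₂ w₁ ⟨k₁, k₂, k₃, k₄⟩ hw
      obtain ⟨w₂, q₁, q₂, q₃, q₄, q₅, q₆⟩ := down_step y₁ y₂ hE k₁ k₂ k₃ k₄ hw
      exact ⟨w₂, q₁, q₂, q₃, q₄, q₅, q₆⟩)
    (by
      rintro s v₁ v₂ w₂ ⟨k₁, k₂, k₃, k₄⟩ hw
      obtain ⟨w₁, q₁, q₂, q₃, q₄, q₅, q₆⟩ := down_step y₂ y₁ hE' k₂ k₁ k₄ k₃ hw
      exact ⟨w₁, q₁, q₂, q₄, q₃, q₆, q₅⟩)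
    r o₁ o₂
    ⟨g₁, g₂, fun l hl a ha => by
      obtain ⟨i, hi, hi'⟩ := hc₁ l hl a ha
      exact ⟨z₂ i, ⟨i, hi.symm, rfl⟩, by rw [← hi']; exact hl₂ i⟩,
      fun l hl b hb => by
      obtain ⟨i, hi, hi'⟩ := hc₂ l hl b hb
      exact ⟨z₁ i, ⟨i, rfl, hi.symm⟩, by rw [← hi']; exact hl₁ i⟩⟩
    (fun i j hi hj hij => dist_iter y₁ _ o₁ g₁ i j (by omega) (by omega) hij)
    (fun i j hi hj hij => dist_iter y₂ _ o₂ g₂ i j (by omega) (by omega) hij)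
  constructor
  · rintro ⟨f, ho, hf⟩
    refine ⟨e.symm.trans f, h₂, ?_⟩
    rw [← he]
    change f (e.symm (e _)) = p
    rw [RelIso.symm_apply_apply]
    exact hf
  · rintro ⟨f, ho, hf⟩
    refine ⟨e.trans f, h₁, ?_⟩
    change f (e _) = p
    rw [he]
    exact hf

end Pool.Agent.K3h17.FF
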